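import Mathlib
import Pool.Agent.H27.SymDefs
import Pool.Agent.H27.SymConv

/-! # Metrizable group topologies on `S_∞`

The only metrizable group topologies on the group `S_∞` of all permutations of `ℤ` are the four
standard ones. -/

namespace Pool.Agent.Results.MP_8d0ff6_al.FourTopologies

open Pool.Agent.H27.SymDefs

/-- A topology `τ` on `S_∞ = Equiv.Perm ℤ` is a metrizable group topology if and only if it is one
of the four standard topologies `τ_N`, where `N` is the trivial group `⊥`, the group `N_b` of
finitary even permutations, the group `N_c` of finitary permutations, or the whole group `⊤`; and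
the sets `Stab(F) ∩ N` (`F` a finite set of integers) form a neighbourhood base of the identity
for `τ_N`. -/
theorem result :
    (∀ τ : TopologicalSpace SInf,
      (@IsTopologicalGroup SInf τ _ ∧ @TopologicalSpace.MetrizableSpace SInf τ) ↔
        (τ = stdTopology ⊥ ∨ τ = stdTopology Nb ∨ τ = stdTopology Nc ∨ τ = stdTopology ⊤)) ∧
    (∀ N : Subgroup SInf,
      (@nhds SInf (stdTopology N) 1).HasBasis (fun _ : Finset ℤ => True)
        (fun F => {h | h ∈ N ∧ ∀ x ∈ F, h x = x})) := by
  refine ⟨Pool.Agent.H27.SymMain.classification, ?_⟩
  intro N
  have h := Pool.Agent.H27.SymMain.basis_std N 1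
  refine h.congr (fun _ => Iff.rfl) ?_
  intro F _
  ext k
  simp

end Pool.Agent.Results.MP_8d0ff6_al.FourTopologies
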